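import Mathlib
import Pool.Agent.L7h32.CT.FinA

/-!
# Chen's theorem for almost all k-tuples of shifts from arbitrary sets

For every `k`, `ε > 0` and `η > 0` there is `K₀` such that for ALL finite sets `A_1, ..., A_k` of integers with
at least `K₀` elements and all large `x`: for all but `ε |A_1| ... |A_k|` of the vectors
`a ∈ A_1 × ... × A_k` with `(0, a_1, ..., a_k)` admissible there are at least `x ^ (1 - η)` primes `p ≤ x` such
that ALL of `p + a_1, ..., p + a_k` have at most two prime factors (counted with multiplicity), each of them at
least `x ^ (1/7)`.

The sets `A_i` are arbitrary (no structure, no growth with `x`); the prime `k`-tuples conjecture is the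
statement with primes instead of numbers with at most two prime factors and without exceptional vectors.

Proof. By Erdős's box lemma one needs one good vector in every box `B_1 × ... × B_k` of sets with `K` elements
all of whose vectors are admissible, `K` large. One takes the Maynard-Tao weights of the starting files for the
linear forms `n`, `n + b` (`b ∈ B_i`) and further forms which replace the form `n` by a class of its own. On the
`n` with `n` prime, and on any part of them with a positive proportion of the weight, the sum over `b ∈ B_i` of
Chen's weight of the number `n + b` (a lower bound weighted sieve of level `x ^ (111/200)`, beyond `1/2`, well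
factorable) is evaluated by a Bessel (second moment) inequality: the correlations of two divisor sums of two
different forms are those of the starting files, and the variance is small since there are many forms. So the
sum is positive, hence the part cannot consist of `n` for which no `n + b`, `b ∈ B_i`, has at most two prime
factors. Hence most of the primes `n`, with respect to the weight, have for every `i` such a `b_i ∈ B_i`.
-/

set_option autoImplicit false

namespace Pool.Agent.Results.MP_8923e7_nt.AlmostAllTuplesChen

open Finset

/-- `m` exceeds `1` and has at most two prime factors, counted with multiplicity, all at least `y` -/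
def P2 (y : ℝ) (m : ℤ) : Prop :=
  1 < m ∧ m.natAbs.primeFactorsList.length ≤ 2 ∧ ∀ q ∈ m.natAbs.primeFactors, y ≤ (q : ℝ)

/-- for every prime `p` some `n` makes all of `n, n + a_1, ..., n + a_k` prime to `p` -/
def Admissible {k : ℕ} (a : Fin k → ℤ) : Prop :=
  ∀ p : ℕ, p.Prime → ∃ n : ℤ, ¬ (p : ℤ) ∣ n ∧ ∀ i, ¬ (p : ℤ) ∣ n + a i

open Classical in
/-- the number of the primes `p ≤ x` such that all of `p + a_1, ..., p + a_k` have at most two prime factors,
all of them at least `x ^ (1/7)` -/
noncomputable def count {k : ℕ} (a : Fin k → ℤ) (x : ℕ) : ℕ :=
  ((Icc 1 x).filter (fun p : ℕ => p.Prime ∧ ∀ i, P2 ((x : ℝ) ^ (1 / 7 : ℝ)) (p + a i))).card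

open Classical in
/-- **Chen's theorem for almost all vectors of shifts.** -/
theorem result (k : ℕ) (ε η : ℝ) (hε : 0 < ε) (hη : 0 < η) : ∃ K₀ : ℕ, ∀ A : Fin k → Finset ℤ,
    (∀ i, K₀ ≤ (A i).card) → ∃ x₀ : ℕ, ∀ x : ℕ, x₀ ≤ x →
    (((Fintype.piFinset A).filter
      (fun a => Admissible a ∧ (count a x : ℝ) < (x : ℝ) ^ (1 - η))).card : ℝ) ≤
      ε * ∏ i, ((A i).card : ℝ) :=
  Pool.Agent.L7h32.CT.mainA k ε η hε hη

end Pool.Agent.Results.MP_8923e7_nt.AlmostAllTuplesChen
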