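import Mathlib
import Pool.Agent.L7h32.CT.RamC

/-!
# Every infinite set of integers contains an infinite set of shifts whose finite subsets satisfy Chen's theorem

Let `A` be ANY infinite set of integers and `ψ` any function, however fast it grows. There are distinct
elements `b_0, b_1, b_2, ...` of `A` such that for every finite set `I` of indices with `|I| ≤ ψ(min I)` and
EVERY `i₀ ∈ I`, for every `η > 0` there are arbitrarily large `x` with at least `x ^ (1 - η)` numbers `n ≤ x` for
which `n + b_{i₀}` is prime and ALL of `n + b_i`, `i ∈ I`, have at most two prime factors (counted with
multiplicity), each of them at least `x ^ (1/7)`.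

In particular, for every `k` all the `k`-element subsets of the one infinite set `B = {b_0, b_1, ...}`, apart from
those which contain one of finitely many elements, have this property, with the prime at any prescribed place.
For no single set with more than two elements is this known; the prime `k`-tuples conjecture says that all
of the `n + b_i` can be prime.

Proof. By Ramsey's theorem an infinite set contains an infinite subset such that all its `k`-element
subsets, in increasing order, have the property for the same places of the prime. If some place were missing,
one takes `k` consecutive blocks of `K` elements of this set: by the sieve theorem of `AlmostAllTuplesChen`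
(`Pool.Agent.L7h32.CT.thmC`) there are many `n` for which a prescribed element of the block of that place gives a
prime and all blocks give numbers with at most two prime factors, a contradiction. Before this one passes to a
subset of `A` all of whose subsets are admissible, and at the end to a diagonal sequence.
-/

set_option autoImplicit false

namespace Pool.Agent.Results.MP_8923e7_nt.InfiniteSetsOfChenShifts

open Finset Filter

/-- `m` exceeds `1` and has at most two prime factors, counted with multiplicity, all at least `y` -/
def P2 (y : ℝ) (m : ℤ) : Prop :=
  1 < m ∧ m.natAbs.primeFactorsList.length ≤ 2 ∧ ∀ q ∈ m.natAbs.primeFactors, y ≤ (q : ℝ)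

open Classical in
/-- the number of the `n ≤ x` such that `n + b i₀` is prime and all of `n + b i`, `i ∈ I`, have at most two
prime factors, all of them at least `x ^ (1/7)` -/
noncomputable def count (b : ℕ → ℤ) (I : Finset ℕ) (i₀ : ℕ) (x : ℕ) : ℕ :=
  ((Icc 1 x).filter (fun n : ℕ => ((n : ℤ) + b i₀).toNat.Prime ∧
    ∀ i ∈ I, P2 ((x : ℝ) ^ (1 / 7 : ℝ)) (n + b i))).card

/-- **Infinite sets of shifts in every infinite set, all of whose finite subsets far out are good.** -/
theorem result (A : Set ℤ) (hA : A.Infinite) (ψ : ℕ → ℕ) : ∃ b : ℕ → ℤ, Function.Injective b ∧
    (∀ i, b i ∈ A) ∧ ∀ I : Finset ℕ, (∀ i ∈ I, I.card ≤ ψ i) → ∀ i₀ ∈ I, ∀ η : ℝ, 0 < η →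
    ∃ᶠ x : ℕ in atTop, (x : ℝ) ^ (1 - η) ≤ (count b I i₀ x : ℝ) :=
  Pool.Agent.L7h32.CT.mainR A hA ψ

end Pool.Agent.Results.MP_8923e7_nt.InfiniteSetsOfChenShifts
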