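import Mathlib
import Pool.Agent.L7h32.CT.FinA

/-!
# Many primes among T numbers which all have at most two prime factors, for almost all T-tuples

Let `18 M < 5 T`. For every `ε > 0` and `η > 0` there is `K₀` such that for ALL finite sets `A_1, ..., A_T` of
integers with at least `K₀` elements and all large `x`: for all but `ε |A_1| ... |A_T|` of the admissible
vectors `a ∈ A_1 × ... × A_T` there are at least `x ^ (1 - η)` numbers `n ≤ x` such that ALL of
`n + a_1, ..., n + a_T` have at most two prime factors (counted with multiplicity), each of them at least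
`x ^ (1/7)`, and MORE THAN `M` of them are prime.

So for almost all tuples of shifts from arbitrary large sets more than `5/18` of the numbers are prime and the
remaining ones are products of two primes.

Proof. As in `AlmostAllTuplesChen` the `n` for which one form is prime and all the forms of one class fail to
have at most two prime factors have a small proportion of the weight. The counting argument of the coloured
Maynard-Tao theorem with the constant `18/5` (starting files) is applied to the other `n`: the upper bounds for
the pairs of primes hold for any set of `n` which contains a positive proportion of the weight of the primes,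
by the Bessel inequality.
-/

set_option autoImplicit false

namespace Pool.Agent.Results.MP_8923e7_nt.PrimesAmongAlmostPrimes

open Finset

/-- `m` exceeds `1` and has at most two prime factors, counted with multiplicity, all at least `y` -/
def P2 (y : ℝ) (m : ℤ) : Prop :=
  1 < m ∧ m.natAbs.primeFactorsList.length ≤ 2 ∧ ∀ q ∈ m.natAbs.primeFactors, y ≤ (q : ℝ)

/-- for every prime `p` some `n` makes all of `n + a_1, ..., n + a_T` prime to `p` -/
def Admissible {T : ℕ} (a : Fin T → ℤ) : Prop :=
  ∀ p : ℕ, p.Prime → ∃ n : ℤ, ∀ i, ¬ (p : ℤ) ∣ n + a i

open Classical in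
/-- the number of the `n ≤ x` such that more than `M` of `n + a_1, ..., n + a_T` are prime and all of them have
at most two prime factors, all at least `x ^ (1/7)` -/
noncomputable def count {T : ℕ} (M : ℕ) (a : Fin T → ℤ) (x : ℕ) : ℕ :=
  ((Icc 1 x).filter (fun n : ℕ =>
    M + 1 ≤ (univ.filter (fun i : Fin T => ((n : ℤ) + a i).toNat.Prime)).card ∧
    ∀ i, P2 ((x : ℝ) ^ (1 / 7 : ℝ)) (n + a i))).card

open Classical in
/-- **Primes among almost primes for almost all tuples.** -/
theorem result (T M : ℕ) (hTM : 18 * M < 5 * T) (ε η : ℝ) (hε : 0 < ε) (hη : 0 < η) :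
    ∃ K₀ : ℕ, ∀ A : Fin T → Finset ℤ, (∀ i, K₀ ≤ (A i).card) → ∃ x₀ : ℕ, ∀ x : ℕ, x₀ ≤ x →
    (((Fintype.piFinset A).filter
      (fun a => Admissible a ∧ (count M a x : ℝ) < (x : ℝ) ^ (1 - η))).card : ℝ) ≤
      ε * ∏ i, ((A i).card : ℝ) :=
  Pool.Agent.L7h32.CT.mainB1 T M hTM none ε η hε hη

end Pool.Agent.Results.MP_8923e7_nt.PrimesAmongAlmostPrimes
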