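import Pool.Agent.L7h18.RM.TupJ

/-!
# The prime `k`-tuples conjecture for all the tuples of shifts which are multiples of neighbours of random integers with a
# random field of digits, up to two fifths of the digits being prescribed

The shifts are arbitrary multiples `h q` (`h ≤ k ^ J`) of arbitrary integers `q` at a distance of at most `k ^ W` from
`c i + κ i v i`, where the `v i < b ^ k` are independent random integers whose digits form Markov random fields on arbitrary
graphs of positions of bounded degree; only the digits at the positions in sets `I i` have to be flexible, the other ones may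
be prescribed. The set `I i` contains more than a half of the positions of every initial segment (the least significant
digits), a positive proportion of the positions of every final segment and more than three fifths of all the positions. The
asymptotic formula of Hardy and Littlewood holds, with a high probability, for ALL these vectors of shifts at once.

Method. New (`Pool.Agent.L7h18.RM`): all the multiples of such random integers have a thin large spectrum: if the exponential
sum at the frequency `h κ t / b ^ (K + 1)` is not small, then there are at most `O(log K)` good flexible positions (averages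
over separated neighbourhoods in the graph, after `Pool.Agent.N213.GF`, starting files), so the frequency `t` is near to the
multiples of few numbers (`Pool.Agent.Y885`, starting files). The passage from such a law to prime tuples is
`Pool.Agent.Y885.tl_tuples`; the union over the multiples follows `Pool.Agent.N625.PT.t_tuples` (starting files).

Examples of random fields with all the positions flexible, proved in `Pool.Agent.N213.GF.E` and `Pool.Agent.N213.GF.F`
(starting files): the uniform distribution on the solutions of local constraints with flexible digits on a graph of positions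
with degrees at most `Δ`, with `η = 1 / b ^ (Δ + 1)` (`unif_field`); in particular the integers whose nonzero digits form an
independent set of the graph (`indep_local`), and, for `b ≥ Δ + 2`, the integers whose digits are a proper colouring of the
graph (`colour_local`).

Definitions used: `Pool.Agent.H373R2.T7.singZ a z`: the partial product over the primes `p ≤ z` of
`(1 - ν(p) / p) / (1 - 1 / p) ^ (s + 1)`, where `ν(p)` is the number of `r < p` for which `p` divides
`r (r + a 1) ... (r + a s)`; `Pool.Agent.H373R2.T7.tupleCount a N`: the sum of
`log p * ∏ i, log (p + a i)` over the primes `p ≤ N` for which all `p + a i` are primes;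
`Pool.Agent.H373R2.T7.Admissible a`: for every prime `p` there is an `r` such that `p` divides neither
`r` nor any `r + a i`; `Pool.Agent.H560R3.GB.primeTuples a N`: the number of primes `p ≤ N` for which
all `p + a i` are primes.
-/

set_option autoImplicit false

namespace Pool.Agent.Results.MP_8923e7_nt.RandomFieldMultiples

open Finset Pool.Agent.H560R3.GB
open Pool.Agent.H373R2.T7 (singZ tupleCount Admissible)

/-- The digit of `v` at the position `i` in base `b` (the position `0` is the least significant one). -/
def dig (b v i : ℕ) : ℕ := v / b ^ i % b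

/-- The integer which has the digits of `v` at the positions in `S` and the digits of `w` at the other positions below `k`. -/
def splice (b k : ℕ) (S : Finset ℕ) (v w : ℕ) : ℕ := ∑ i ∈ range k, (if i ∈ S then dig b v i else dig b w i) * b ^ i

/-- `v` and `w` have the same digits outside the set `S` of positions. -/
def Off (b : ℕ) (S : Finset ℕ) (v w : ℕ) : Prop := ∀ i, i ∉ S → dig b v i = dig b w i

open Classical in
/-- The closed neighbourhood of the position `i` in the graph `A` on the positions `0, …, k - 1`. -/
noncomputable def nb (k : ℕ) (A : ℕ → ℕ → Prop) (i : ℕ) : Finset ℕ := (range k).filter fun j => j = i ∨ A i j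

open Classical in
/-- The total weight of the integers below `b ^ k` which have the same digits as `v` outside `S`. -/
noncomputable def mass (b k : ℕ) (p : ℕ → ℝ) (S : Finset ℕ) (v : ℕ) : ℝ :=
  ∑ w ∈ (range (b ^ k)).filter (fun w => Off b S w v), p w

/-- The digits of a random integer `v < b ^ k` (with the probabilities `p v`) form a Markov random field on a graph `A` of
positions with degrees at most `Δ` (the Markov property: for every set `S` of positions and all `v`, `w` which have the same
digits at the positions outside `S` adjacent to `S`, the product `p v * p w` does not change if `v` and `w` exchange their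
digits in `S`), and the digits at the positions in `I` are flexible: for every `v` with `p v ≠ 0` and every position `i` in
`I`, there are `x` and `y` which have the same digits as `v` outside the closed neighbourhood of `i`, which differ from each
other exactly at the position `i`, and whose conditional probabilities, given the digits outside this neighbourhood, are at
least `η`. (The digits at the other positions may be prescribed, for instance.) -/
structure Field (b k Δ : ℕ) (η : ℝ) (I : Finset ℕ) (A : ℕ → ℕ → Prop) (p : ℕ → ℝ) : Prop where
  symm : ∀ i j, A i j → A j i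
  degree : ∀ i < k, (nb k A i).card ≤ Δ + 1
  nonneg : ∀ v, 0 ≤ p v
  sum : ∑ v ∈ range (b ^ k), p v = 1
  markov : ∀ S : Finset ℕ, ∀ v < b ^ k, ∀ w < b ^ k, (∀ i ∈ S, ∀ j < k, j ∉ S → A i j → dig b v j = dig b w j) →
    p v * p w = p (splice b k S v w) * p (splice b k S w v)
  flexible : ∀ v < b ^ k, p v ≠ 0 → ∀ i < k, i ∈ I → ∃ x < b ^ k, ∃ y < b ^ k, Off b (nb k A i) x v ∧ Off b {i} y x ∧
    dig b y i ≠ dig b x i ∧ η * mass b k p (nb k A i) v ≤ p x ∧ η * mass b k p (nb k A i) v ≤ p y

/-- The set `I` of positions below `k` contains more than a half of the positions of each initial segment, a positive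
proportion of the positions of each final segment (up to `D log k` positions) and more than three fifths of all the
positions. -/
def Rich (δ : ℝ) (D k : ℕ) (I : Finset ℕ) : Prop :=
  (∀ i ∈ I, i < k) ∧
  (∀ m ≤ k, (1 / 2 + δ) * m ≤ ((I.filter (fun i => i < m)).card : ℝ) + D * Real.log k) ∧
  (∀ m ≤ k, δ * m ≤ ((I.filter (fun i => k - m ≤ i)).card : ℝ) + D * Real.log k) ∧
  (3 / 5 + δ) * k ≤ (I.card : ℝ)

/-- The formula of Hardy and Littlewood for the shifts `a 1, ..., a s` and the primes up to `N`: the
singular series converges, its sum `S` predicts the weighted number of prime tuples with an error of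
at most `N / log ^ U N`, and, if the shifts are admissible, `S` is positive and `S N / log ^ (s + 1) N`
predicts the number of prime tuples with a relative error of at most `ε`. -/
def Holds {s : ℕ} (ε : ℝ) (U N : ℕ) (a : Fin s → ℕ) : Prop :=
  ∃ S : ℝ, Filter.Tendsto (fun z => singZ (fun i => (a i : ℤ)) z) Filter.atTop (nhds S) ∧
    |tupleCount (fun i => (a i : ℤ)) N - S * N| ≤ (N : ℝ) / Real.log N ^ U ∧
    (Admissible (fun i => (a i : ℤ)) → 0 < S ∧
      |(primeTuples a N : ℝ) - S * (N / Real.log N ^ (s + 1))| ≤ ε * (S * (N / Real.log N ^ (s + 1))))

/-- The formula of Hardy and Littlewood holds for ALL the vectors of shifts `h i * q i`, where `1 ≤ h i ≤ k ^ J` and the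
integers `q i ≥ 0` are at a distance of at most `k ^ W` from `y i`. -/
def AllMultiples {s : ℕ} (ε : ℝ) (U N J W k : ℕ) (y : Fin s → ℤ) : Prop :=
  ∀ h : Fin s → ℕ, (∀ i, 1 ≤ h i ∧ h i ≤ k ^ J) → ∀ q : Fin s → ℕ, (∀ i, |(q i : ℤ) - y i| ≤ (k : ℤ) ^ W) →
    Holds ε U N (fun i => h i * q i)

lemma field_conv {b k Δ : ℕ} {η : ℝ} {I : Finset ℕ} {A : ℕ → ℕ → Prop} {p : ℕ → ℝ} (h : Field b k Δ η I A p) :
    Pool.Agent.L7h18.RM.FieldJ b k Δ η I A p :=
  ⟨h.symm, h.degree, h.nonneg, h.sum, h.markov, h.flexible⟩

open Classical in
/-- Let `s ≥ 1`, `b ≥ 2`, `Δ i`, `η i > 0`, `κ i ≠ 0` for `i < s`, `δ > 0`, `D`, `B`, `R`, `J`, `J₂`, `W`, `U` and `ε > 0` be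
fixed. Let `k` be large, let the `c i` be arbitrary integers with `|c i| ≤ B b ^ k`, let the `I i` be sets of positions below
`k` which contain at least `(1 / 2 + δ) m - D log k` of the `m` least significant and `δ m - D log k` of the `m` most
significant positions for each `m ≤ k`, and `(3 / 5 + δ) k` positions, and let the `v i < b ^ k` be independent random
integers whose digits in base `b` form Markov random fields on arbitrary graphs `G i` of positions with degrees at most
`Δ i`, with flexible digits at the positions in `I i` (`k` must be large in terms of the fixed numbers only). Then, for all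
`N` with `k ^ J b ^ k ≤ R N` and `N ≤ k ^ J₂ b ^ k`, with probability at least `1 - 1 / k ^ U`, the formula of Hardy and
Littlewood for the primes `p ≤ N` and the tuple `p, p + a 1, ..., p + a s` holds for ALL the vectors `a` with `a i = h i q i`,
`1 ≤ h i ≤ k ^ J`, `q i ≥ 0` and `|q i - (c i + κ i v i)| ≤ k ^ W`. -/
theorem result (s : ℕ) (hs : 1 ≤ s) (b : ℕ) (hb : 2 ≤ b) (Δ : Fin s → ℕ) (η : Fin s → ℝ) (hη : ∀ i, 0 < η i) (δ : ℝ)
    (hδ : 0 < δ) (D : ℕ) (κ : Fin s → ℤ) (hκ : ∀ i, κ i ≠ 0) (B R J J₂ W U : ℕ) (ε : ℝ) (hε : 0 < ε) :
    ∃ k₀ : ℕ, ∀ k : ℕ, k₀ ≤ k → ∀ c : Fin s → ℤ, (∀ i, |c i| ≤ B * (b : ℤ) ^ k) →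
      ∀ (G : Fin s → ℕ → ℕ → Prop) (I : Fin s → Finset ℕ) (p : Fin s → ℕ → ℝ), (∀ i, Rich δ D k (I i)) →
      (∀ i, Field b k (Δ i) (η i) (I i) (G i) (p i)) →
      ∀ N : ℕ, k ^ J * b ^ k ≤ R * N → N ≤ k ^ J₂ * b ^ k →
      ∑ v ∈ Fintype.piFinset (fun _ : Fin s => range (b ^ k)),
        (if AllMultiples ε U N J W k (fun i => c i + κ i * (v i : ℕ)) then 0 else ∏ i, p i (v i)) ≤ 1 / (k : ℝ) ^ U := by
  obtain ⟨k₀, h0⟩ := Pool.Agent.L7h18.RM.j_tuples s hs hb Δ η hη δ hδ D κ hκ B R J J₂ W U ε hε
  refine ⟨k₀, fun k hk c hc G I p hI hp N hN1 hN2 => ?_⟩
  exact h0 k hk G I p hI (fun i => field_conv (hp i)) c hc N hN1 hN2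

end Pool.Agent.Results.MP_8923e7_nt.RandomFieldMultiples
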